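import Pool.Agent.H78.KP.Stmts

/-!
# Project KP: from the bound for Lipschitz functions on bodies to the final theorem
-/

set_option autoImplicit false

open MeasureTheory Set Filter Topology
open scoped ContDiff ENNReal NNReal

namespace Pool.Agent.H78.KP

open Pool.Agent.H84 Pool.Agent.H84.Sym Pool.Agent.H84.Sym.P2x Pool.Agent.H19.KL
open Pool.Agent.H73.KG

theorem L1_pos (n : ℕ) : 1 < L1 n := by
  unfold L1
  rw [Real.lt_log_iff_exp_lt (by positivity)]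
  have h := Real.exp_one_lt_d9
  have : (0:ℝ) ≤ n := Nat.cast_nonneg n
  linarith

theorem L2_pos (n : ℕ) : 0 < L2 n := Real.log_pos (L1_pos n)

theorem final_thm (hB : BD5Stmt)
    (hK : ∀ (E : Type) [NormedAddCommGroup E] [InnerProductSpace ℝ E] [FiniteDimensional ℝ E]
      [MeasurableSpace E] [BorelSpace E], KREStmt E) :
    ∃ C : ℝ, 0 < C ∧ ∀ (n : ℕ) (Ω : Set (EuclideanSpace ℝ (Fin (n + 1)))), IsOpen Ω →
      Convex ℝ Ω → Bornology.IsBounded Ω → (∀ x ∈ Ω, -x ∈ Ω) → Ω.Nonempty →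
      ∃ a : EuclideanSpace ℝ (Fin (n + 1)), ‖a‖ = 1 ∧
        ∀ S : Set (EuclideanSpace ℝ (Fin (n + 1))), MeasurableSet S → S ⊆ Ω →
          volume S = volume Ω / 2 →
          μH[(n:ℝ)] {x | x ∈ Ω ∧ inner ℝ a x = (0:ℝ)} ≤
            ENNReal.ofReal (C * L2 (n + 1) ^ ((5:ℝ) / 2)) *
              μH[(n:ℝ)] (Ω ∩ frontier S) := by
  obtain ⟨C, hC, hB⟩ := hB
  refine ⟨7300 * C, by positivity, ?_⟩
  intro n Ω ho hc hb hs hne
  have hfr : Module.finrank ℝ (EuclideanSpace ℝ (Fin (n + 1))) = n + 1 := by simp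
  obtain ⟨a, ha, s, hs0, hvar, H⟩ := hK (EuclideanSpace ℝ (Fin (n + 1))) n hfr Ω ho hc hb hs hne
  refine ⟨a, ha, ?_⟩
  obtain ⟨R, hR⟩ := hb.subset_closedBall 0
  have hCB : CB Ω R := ⟨hc, ho.measurableSet, hR, (ho.measure_pos volume hne).ne'⟩
  have hPL := hB (EuclideanSpace ℝ (Fin (n + 1))) Ω R s hCB hs0 hvar
  rw [hfr] at hPL
  set l := L2 (n + 1) ^ ((5:ℝ) / 2) with hl
  have hl0 : 0 < l := by
    have h2 := L2_pos (n + 1)
    rw [hl]
    positivity
  intro S hS hSΩ hSv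
  have h := H (C * l) (by positivity) (by rw [show C * l * s = C * s * l by ring]; exact hPL)
    S hS hSΩ hSv
  rwa [show 7300 * (C * l) = 7300 * C * l by ring] at h

end Pool.Agent.H78.KP
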