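import Pool.Agent.H20.KH.All
import Pool.Agent.H78.KP.Final
import Pool.Agent.H11.KP.BET
import Pool.Agent.H12.KP.STQ
import Pool.Agent.H17.KP.T3S
import Pool.Agent.H26.KP.L1W
import Pool.Agent.H27.KP.BD5
import Pool.Agent.H27.KP.NSB
import Pool.Agent.H27.KP.SL5
import Pool.Agent.H27.KP.STC
import Pool.Agent.H33.KP.NSF
import Pool.Agent.H33.KP.TH5
import Pool.Agent.H33.KP.WHN
import Pool.Agent.H41.KP.NSS
import Pool.Agent.H49.KP.CVD
import Pool.Agent.H49.KP.QCA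
import Pool.Agent.H49.KP.TC5
import Pool.Agent.H59.KP.EVJ
import Pool.Agent.H59.KP.EVV
import Pool.Agent.H62.KP.GBI
import Pool.Agent.H62.KP.THD
import Pool.Agent.H67.KP.EV4
import Pool.Agent.H80.KP.EV3
import Pool.Agent.H82.KP.INT
import Pool.Agent.H82.KP.NSA
import Pool.Agent.H86.KP.NEX
import Pool.Agent.H87.KP.AFF
import Pool.Agent.H87.KP.DIA
import Pool.Agent.H97.KP.COR

/-!
# Project KP: the complete theorem
-/

set_option autoImplicit false
set_option linter.unusedSectionVars false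

open MeasureTheory Set Filter Topology
open scoped ContDiff ENNReal

namespace Pool.Agent.H78.KP

open Pool.Agent.H84 Pool.Agent.H84.Sym Pool.Agent.H84.Sym.P2x Pool.Agent.H19.KL
open Pool.Agent.H73.KG Pool.Agent.H20.KH
open Pool.Agent.H59.KP Pool.Agent.H82.KP Pool.Agent.H33.KP

section

variable (E : Type) [NormedAddCommGroup E] [InnerProductSpace ℝ E]
    [FiniteDimensional ℝ E] [MeasurableSpace E] [BorelSpace E]

theorem b_m4 : M4Stmt E := m4_thm (bas_thm E)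
theorem b_mqb : MQBStmt E := mqb_thm (bas_thm E)
theorem b_nsa : NSAStmt E := nsa_thm (bas_thm E) (b_m4 E)
theorem b_nsb : NSBStmt E := nsb_thm E (bas_thm E)
theorem b_nss : NSSStmt E := nss_thm E (a_cov E) (bas_thm E) (a_pwb E) (a_rgc E) (a_rgp E)
  (a_cvr E) (a_bay E)
theorem b_nsf : NSFStmt E := nsf_thm E (b_nsa E) (b_nsb E) (b_nss E)
theorem b_cor : CORStmt E := cor_thm E (b_nsf E)
theorem b_l1w : L1WStmt E := l1w_thm E (b_nsf E)
theorem b_cvd : CVDStmt E := cvd_thm E (a_rgc E) (a_rgp E)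
theorem b_evj : EVJStmt E := evj_thm (a_pwb E) (a_rgc E) (a_rgp E) (a_bay E) (a_dyn E) (a_aag E)
theorem b_evv : EVVStmt E := evv_thm (a_cov E)
theorem b_ev4 : EV4Stmt E := ev4_thm E (bas_thm E) (a_pwb E) (a_rgc E) (a_rgp E) (a_bay E)
  (a_dyn E) (a_aag E) (b_mqb E) (b_l1w E)
theorem b_qca : QCAStmt E := qca_thm E (b_mqb E) (a_pwb E) (bas_thm E)
theorem b_gbi : GBIStmt E := gbi_thm (bas_thm E)
theorem b_ev3 : EV3Stmt E := EV3_thm E (b_cvd E) (b_mqb E) (a_dyn E) (a_rgc E) (a_bay E)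
  (a_cov E) (a_pwb E) (a_cvr E)
theorem b_dia : DIAStmt E := dia_thm
theorem b_aff : AFFStmt E := aff_thm (b_dia E)
theorem b_whn : WHNStmt E := whn_thm E (b_dia E)
theorem b_nex : NEXStmt E := nex_thm E
theorem b_t3s : T3SStmt E := t3s_thm E
theorem b_bet : BETStmt E := bet_thm E (b_cor E) (b_t3s E) (b_ev4 E) (b_qca E) (bas_thm E)
  (a_pwb E) (a_rgc E) (a_rgp E) (a_bay E) (a_aag E)
theorem b_stc : STCStmt E := stc_thm E (b_aff E) (b_evj E) (b_evv E) (b_ev3 E) (b_bet E)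
  (a_pwb E) (bas_thm E) (a_bay E) (a_rgc E) (a_cvr E) (a_rgp E)
theorem b_stq : STQStmt E := stq_thm (b_stc E) (b_nex E) (b_whn E)
theorem b_thd : THDStmt E := thd_thm (b_stq E) (b_gbi E) int_thm

end

theorem b_th5 : TH5Stmt := th5_thm (fun E => b_thd E) a_tkl

theorem b_tc5 : TC5Stmt := tc5_thm b_th5 (fun E => b_gbi E) a_vls (fun E => bas_thm E) fpi_thm
  (fun E => a_pwb E) (fun E => a_cvr E) (fun E => a_bay E) (fun E => a_rgc E) (fun E => a_fpb E)

theorem b_bd5 : BD5Stmt := bd5_thm (sl5_thm b_tc5) (fun E => lex_thm E)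

/-- the hyperplane inequality with constant `C (log log n)^{5/2}` -/
theorem all_thm : ∃ C : ℝ, 0 < C ∧ ∀ (n : ℕ) (Ω : Set (EuclideanSpace ℝ (Fin (n + 1)))),
      IsOpen Ω → Convex ℝ Ω → Bornology.IsBounded Ω → (∀ x ∈ Ω, -x ∈ Ω) → Ω.Nonempty →
      ∃ a : EuclideanSpace ℝ (Fin (n + 1)), ‖a‖ = 1 ∧
        ∀ S : Set (EuclideanSpace ℝ (Fin (n + 1))), MeasurableSet S → S ⊆ Ω →
          volume S = volume Ω / 2 →
          μH[(n:ℝ)] {x | x ∈ Ω ∧ inner ℝ a x = (0:ℝ)} ≤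
            ENNReal.ofReal (C * L2 (n + 1) ^ ((5:ℝ) / 2)) *
              μH[(n:ℝ)] (Ω ∩ frontier S) :=
  final_thm b_bd5 (fun E => kre_thm E)

end Pool.Agent.H78.KP
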