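import Pool.Agent.H20.KH.Stmts

/-!
# Project KP: statements (`ψ_n ≤ C (log log n)^{5/2}`)

Plan: `/team-store/KLS_POLYLOGLOG.md`, notation of project KG (`Pool/Agent/H73/KG`).

`GB E t g`: for every measure with `Hess ≥ t` and covariance matrix `A`, and every test function `f`,
`Var f ≤ g E ⟨(A + 1) ∇f, ∇f⟩`.
-/

set_option autoImplicit false

open MeasureTheory Set Filter Topology
open scoped ContDiff

namespace Pool.Agent.H78.KP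

open Pool.Agent.H84 Pool.Agent.H84.Sym Pool.Agent.H84.Sym.P2x Pool.Agent.H19.KL
open Pool.Agent.H73.KG Pool.Agent.H20.KH

section defs

variable {E : Type} [NormedAddCommGroup E] [InnerProductSpace ℝ E]
    [FiniteDimensional ℝ E] [MeasurableSpace E] [BorelSpace E]
variable {ι : Type} [Fintype ι]

/-- the Dirichlet form with the constant matrix `M` -/
noncomputable def WD (b : OrthonormalBasis ι ℝ E) (M : Matrix ι ι ℝ) (U f : E → ℝ) : ℝ :=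
  ∫ x, (∑ i, ∑ j, M i j * (D (b i) f x * D (b j) f x)) ∂(mu U)

/-- the Dirichlet form -/
noncomputable def Y1 (U f : E → ℝ) : ℝ := ∫ x, ‖fderiv ℝ f x‖ ^ 2 ∂(mu U)

/-- the square of the second derivatives -/
noncomputable def hq (b : OrthonormalBasis ι ℝ E) (f : E → ℝ) (x : E) : ℝ :=
  ∑ i, ∑ j, (D (b j) (D (b i) f) x) ^ 2

/-- the mean of the square of the second derivatives -/
noncomputable def Z1 (b : OrthonormalBasis ι ℝ E) (U f : E → ℝ) : ℝ :=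
  ∫ x, hq b f x ∂(mu U)

variable (E) in
/-- the constant `g` is good for all measures with `Hess ≥ t` -/
def GB (t g : ℝ) : Prop := ∀ U : E → ℝ, PP U t → ∀ (ι : Type) [Fintype ι] [DecidableEq ι]
  (b : OrthonormalBasis ι ℝ E) (f : E → ℝ), ContDiff ℝ 1 f → HasCompactSupport f →
  cv U f f ≤ g * WD b (cm b U + 1) U f

/-- diagonal linear map -/
noncomputable def dl (b : OrthonormalBasis ι ℝ E) (l : ι → ℝ) (x : E) : E :=
  ∑ i, (l i * inner ℝ (b i) x) • b i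

/-- potential of the image of `exp (-U)` under the inverse of the diagonal map -/
noncomputable def dU (b : OrthonormalBasis ι ℝ E) (l : ι → ℝ) (U : E → ℝ) (x : E) : ℝ :=
  U (dl b l x) - ∑ i, Real.log (l i)

/-- whitened measures: covariance `1 - R`, Hessian at least `t / R`, `R` diagonal -/
structure WC [DecidableEq ι] (b : OrthonormalBasis ι ℝ E) (t : ℝ) (ρ : ι → ℝ) (U : E → ℝ) :
    Prop where
  pp : PP U t
  pos : ∀ i, 0 < ρ i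
  le : ∀ i, ρ i ≤ 1
  cov : cm b U = Matrix.diagonal (fun i => 1 - ρ i)
  hess : ∀ x v : E, t * ∑ i, (inner ℝ (b i) v) ^ 2 / ρ i ≤ fderiv ℝ (fderiv ℝ U) x v v

/-- third moments of one measure -/
def T3L (U : E → ℝ) (κ : ℝ) : Prop := ∀ θ : E, ‖θ‖ = 1 →
  ∀ (ι : Type) [Fintype ι] (b : OrthonormalBasis ι ℝ E), ∑ i, ∑ j, (t3 U θ (b i) (b j)) ^ 2 ≤ κ

/-- contractions -/
def CT (O : Matrix ι ι ℝ) : Prop := ∀ x y : ι → ℝ,
  (∑ k, ∑ l, O k l * (x k * y l)) ^ 2 ≤ (∑ k, x k ^ 2) * ∑ l, y l ^ 2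

/-- `Ψ` dominates the nuclear norm of the derivative of the vector field `F` -/
structure ND (b : OrthonormalBasis ι ℝ E) (F : ι → E → ℝ) (Ψ : E → ℝ) : Prop where
  tst : ∀ k, Tst (F k)
  lip : ∃ Λ : ℝ, ∀ x y, |Ψ x - Ψ y| ≤ Λ * ‖x - y‖
  dom : ∀ O : Matrix ι ι ℝ, CT O → ∀ x, ∑ k, ∑ l, O k l * D (b l) (F k) x ≤ Ψ x

/-- bound for the pairing of the position with the vector field, all measures with `Hess ≥ t` -/
def NSP (b : OrthonormalBasis ι ℝ E) (F : ι → E → ℝ) (Ψ : E → ℝ) (t c ε : ℝ) : Prop :=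
  ∀ U : E → ℝ, PP U t → ∀ O : Matrix ι ι ℝ, CT O →
    ∑ k, cv U (li (b k)) (fun x => ∑ m, O k m * F m x) ≤ c * (∫ x, Ψ x ∂(mu U)) + ε

/-- the enemy: the correlation of the third moments with the gradient -/
noncomputable def TC (b : OrthonormalBasis ι ℝ E) (V U u : E → ℝ) : ℝ :=
  ∑ k, ∑ i, ∑ j, t3 V (b k) (b i) (b j) *
    cv U (li (b k)) (fun x => D (b i) u x * D (b j) u x)

/-- distance of the covariance matrix of the posterior measure from the original one -/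
noncomputable def qd (b : OrthonormalBasis ι ℝ E) (U : E → ℝ) (r : ℝ) (θ : E) : ℝ :=
  ∑ i, ∑ j, (cm b (pw U r θ) i j - cm b U i j) ^ 2

end defs

section first

variable (E : Type) [NormedAddCommGroup E] [InnerProductSpace ℝ E]
    [FiniteDimensional ℝ E] [MeasurableSpace E] [BorelSpace E]

/-- DIA: diagonal changes of variables -/
def DIAStmt : Prop := ∀ (U : E → ℝ) (t : ℝ), PP U t → ∀ (ι : Type) [Fintype ι] [DecidableEq ι]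
  (b : OrthonormalBasis ι ℝ E) (l : ι → ℝ), (∀ i, 0 < l i) →
  (∀ x v : E, fderiv ℝ (fderiv ℝ (dU b l U)) x v v =
    fderiv ℝ (fderiv ℝ U) (dl b l x) (dl b l v) (dl b l v)) ∧
  (∀ t' : ℝ, 0 < t' → (∀ x v : E, t' * ‖v‖ ^ 2 ≤ fderiv ℝ (fderiv ℝ U) x (dl b l v) (dl b l v)) →
    PP (dU b l U) t') ∧
  (∀ F : E → ℝ, ∫ x, F (dl b l x) ∂(mu (dU b l U)) = ∫ x, F x ∂(mu U)) ∧
  (∀ i j, cm b (dU b l U) i j = cm b U i j / (l i * l j)) ∧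
  (∀ i (f : E → ℝ) (x : E), ContDiff ℝ 1 f → D (b i) (fun x => f (dl b l x)) x =
    l i * D (b i) f (dl b l x)) ∧
  (∀ f : E → ℝ, ContDiff ℝ 1 f → HasCompactSupport f →
    ContDiff ℝ 1 (fun x => f (dl b l x)) ∧ HasCompactSupport (fun x => f (dl b l x)))

/-- AFF: the affine covariant form of `GB` -/
def AFFStmt : Prop := ∀ (t' g : ℝ), 0 < t' → 0 ≤ g → GB E t' g → ∀ (U : E → ℝ) (t : ℝ), PP U t →
  ∀ (ι : Type) [Fintype ι] [DecidableEq ι] (b : OrthonormalBasis ι ℝ E) (β : ι → ℝ),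
  (∀ i, 0 < β i) → (∀ x v : E, ∑ i, β i * (inner ℝ (b i) v) ^ 2 ≤ fderiv ℝ (fderiv ℝ U) x v v) →
  ∀ f : E → ℝ, ContDiff ℝ 1 f → HasCompactSupport f →
  cv U f f ≤ g * (WD b (cm b U) U f + ∑ i, t' / β i * ∫ x, (D (b i) f x) ^ 2 ∂(mu U))

/-- WHN: whitening -/
def WHNStmt : Prop := ∀ t g : ℝ, 0 < t → 0 ≤ g → ¬ GB E t g →
  ∃ (ι : Type) (_ : Fintype ι) (_ : DecidableEq ι) (b : OrthonormalBasis ι ℝ E) (ρ : ι → ℝ)
    (U : E → ℝ), WC b t ρ U ∧ ¬ GPC (mu U) g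

/-- NEX: near extremal functions with small second derivatives -/
def NEXStmt : Prop := ∀ (U : E → ℝ) (t g : ℝ), PP U t → 0 < g → ¬ GPC (mu U) g →
  ∀ (ι : Type) [Fintype ι] (b : OrthonormalBasis ι ℝ E), ∃ u : E → ℝ, Tst u ∧ 0 < Y1 U u ∧
    g * Y1 U u < cv U u u ∧ g * Z1 b U u < Y1 U u

/-- M4: fourth moments -/
def M4Stmt : Prop := ∀ (U : E → ℝ) (t : ℝ), PP U t → ∀ e : E, ‖e‖ = 1 →
  ∫ x, (li e x - mn U e) ^ 2 ∂(mu U) ≤ 1 / t ∧ ∫ x, (li e x - mn U e) ^ 4 ∂(mu U) ≤ 5 / t ^ 2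

/-- NSA: the pairing for large `T` -/
def NSAStmt : Prop := ∀ (ι : Type) [Fintype ι] (b : OrthonormalBasis ι ℝ E) (F : ι → E → ℝ)
  (Ψ : E → ℝ), ND b F Ψ → ∃ C : ℝ, 0 ≤ C ∧ ∀ T : ℝ, 1 ≤ T →
  NSP b F Ψ T (1 / T) (C * (1 / T) * (1 / Real.sqrt T))

/-- NSB: the trivial bound for the pairing -/
def NSBStmt : Prop := ∀ (ι : Type) [Fintype ι] (b : OrthonormalBasis ι ℝ E) (F : ι → E → ℝ)
  (Ψ : E → ℝ), ND b F Ψ → ∀ t : ℝ, 0 < t → ∃ B : ℝ, 0 ≤ B ∧ NSP b F Ψ t 0 B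

/-- NSS: one step -/
def NSSStmt : Prop := ∀ (ι : Type) [Fintype ι] (b : OrthonormalBasis ι ℝ E) (F : ι → E → ℝ)
  (Ψ : E → ℝ), ND b F Ψ → ∀ t h c ε c' ε' : ℝ, 0 < t → 0 < h → 0 ≤ c → 0 ≤ ε → 0 ≤ c' → 0 ≤ ε' →
  NSP b F Ψ t c ε → NSP b F Ψ (t + h) c' ε' → NSP b F Ψ t (h / t * c + c') (h / t * ε + ε')

/-- NSF: the pairing of the position with a vector field (Stein kernel bound) -/
def NSFStmt : Prop := ∀ (ι : Type) [Fintype ι] (b : OrthonormalBasis ι ℝ E) (F : ι → E → ℝ)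
  (Ψ : E → ℝ), ND b F Ψ → ∀ (U : E → ℝ) (t : ℝ), PP U t →
  ∑ k, cv U (li (b k)) (F k) ≤ 1 / t * ∫ x, Ψ x ∂(mu U)

/-- COR: the bound for the enemy -/
def CORStmt : Prop := ∀ (V : E → ℝ) (t' κ : ℝ), PP V t' → T3L V κ → 0 ≤ κ →
  ∀ (U : E → ℝ) (t : ℝ), PP U t → ∀ (ι : Type) [Fintype ι] (b : OrthonormalBasis ι ℝ E)
  (u : E → ℝ) (lam : ℝ), Tst u → 0 < lam →
  TC b V U u ≤ 1 / t * (lam * κ * Y1 U u + 1 / lam * Z1 b U u)

/-- L1W: correlation of a linear function with the square of the gradient -/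
def L1WStmt : Prop := ∀ (U : E → ℝ) (t : ℝ), PP U t → ∀ (ι : Type) [Fintype ι]
  (b : OrthonormalBasis ι ℝ E) (k : ι) (u : E → ℝ), Tst u →
  |cv U (li (b k)) (fun x => ‖fderiv ℝ u x‖ ^ 2)| ≤ 1 / t * (Y1 U u + Z1 b U u)

/-- MQB: elementary bounds for the moments -/
def MQBStmt : Prop := ∀ (U : E → ℝ) (t : ℝ), PP U t → ∀ (ι : Type) [Fintype ι]
  (b : OrthonormalBasis ι ℝ E) (i j k : ι),
  |cm b U i j| ≤ 1 / t ∧ (t3 U (b k) (b i) (b j)) ^ 2 ≤ 5 / t ^ 3 ∧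
  ∀ f : E → ℝ, GC f → (cv U f (fun x => (li (b i) x - mn U (b i)) * (li (b j) x - mn U (b j)))) ^ 2
    ≤ 5 / t ^ 2 * cv U f f

/-- T3S: scaling of the third moments -/
def T3SStmt : Prop := ∀ t0 κ : ℝ, 0 < t0 → 0 ≤ κ → TK E t0 κ → ∀ (U : E → ℝ) (a : ℝ), PP U t0 →
  1 ≤ a → CovLe U a → T3L U (a ^ 3 * κ)

/-- EVJ: the evolution of `E ⟨A ∇u, ∇u⟩` -/
def EVJStmt : Prop := ∀ (U : E → ℝ) (t : ℝ), PP U t → ∀ (ι : Type) [Fintype ι] [DecidableEq ι]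
  (b : OrthonormalBasis ι ℝ E) (u : E → ℝ) (s β : ℝ), Tst u → 0 < s →
  (∀ r ∈ Ioo 0 s, EX U r (fun θ => TC b (pw U r θ) (pw U r θ) u) ≤ β) →
  EX U s (fun θ => WD b (cm b (pw U s θ)) (pw U s θ) u) ≤ WD b (cm b U) U u + s * β

/-- EVV: the decrease of the variance -/
def EVVStmt : Prop := ∀ (U : E → ℝ) (t : ℝ), PP U t → ∀ (ι : Type) [Fintype ι]
  (b : OrthonormalBasis ι ℝ E) (u : E → ℝ) (s β : ℝ), Tst u → 0 < s →
  (∀ r ∈ Ioo 0 s, EX U r (fun θ => ∑ i, (cv (pw U r θ) u (li (b i))) ^ 2) ≤ β) →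
  cv U u u ≤ EX U s (fun θ => cv (pw U s θ) u u) + s * β

/-- CVD: derivative and generator of the covariance with a linear function -/
def CVDStmt : Prop := ∀ (U : E → ℝ) (t : ℝ), PP U t → ∀ u : E → ℝ, GC u →
  ∀ (ι : Type) [Fintype ι] (b : OrthonormalBasis ι ℝ E) (i : ι),
  RG (fun s θ => cv (pw U s θ) u (li (b i))) ∧
  (∀ (s : ℝ) (θ : E), 0 ≤ s → ∀ k, D (b k) (fun θ => cv (pw U s θ) u (li (b i))) θ =
    cv (pw U s θ) u (fun x => (li (b i) x - mn (pw U s θ) (b i)) *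
      (li (b k) x - mn (pw U s θ) (b k)))) ∧
  ∀ (s : ℝ) (θ : E), 0 < s → gen b U (fun s θ => cv (pw U s θ) u (li (b i))) s θ =
    -∑ k, cv (pw U s θ) u (li (b k)) * cm b (pw U s θ) i k

/-- EV3: continuity in time of the velocity -/
def EV3Stmt : Prop := ∀ (U : E → ℝ) (t : ℝ), PP U t → CovLe U 1 → ∀ (ι : Type) [Fintype ι]
  (b : OrthonormalBasis ι ℝ E) (u : E → ℝ), Tst u → ∀ r : ℝ, 0 < r →
  EX U r (fun θ => ∑ i, (cv (pw U r θ) u (li (b i))) ^ 2) ≤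
    (1 + 5 * (Fintype.card ι) ^ 2 / t ^ 2 * r) * cv U u u

/-- EV4: continuity in time of the covariance matrix, weighted with the square of the gradient -/
def EV4Stmt : Prop := ∀ (U : E → ℝ) (t : ℝ), PP U t → t ≤ 1 → ∀ (ι : Type) [Fintype ι]
  (b : OrthonormalBasis ι ℝ E) (u : E → ℝ), Tst u → ∀ r : ℝ, 0 < r →
  RG (fun r θ => qd b U r θ * pm U r θ (fun x => ‖fderiv ℝ u x‖ ^ 2)) ∧
  EX U r (fun θ => qd b U r θ * pm U r θ (fun x => ‖fderiv ℝ u x‖ ^ 2)) ≤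
    20 * (Fintype.card ι) ^ 3 / t ^ 4 * r * (Y1 U u + Z1 b U u)

/-- QCA: the covariance of the posterior measure and `qd` -/
def QCAStmt : Prop := ∀ (U : E → ℝ) (t : ℝ), PP U t → CovLe U 1 → ∀ (ι : Type) [Fintype ι]
  (b : OrthonormalBasis ι ℝ E) (r : ℝ) (θ : E), 0 ≤ r →
  0 ≤ qd b U r θ ∧ qd b U r θ ≤ 4 * (Fintype.card ι) ^ 2 / t ^ 2 ∧
  CovLe (pw U r θ) (1 + Real.sqrt (qd b U r θ))

/-- BET: the enemy along the channel -/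
def BETStmt : Prop := ∀ t0 : ℝ, 0 < t0 → t0 ≤ 1 → ∃ C : ℝ, 1 ≤ C ∧ ∀ κ : ℝ, 0 ≤ κ → TK E t0 κ →
  ∀ (U : E → ℝ) (t : ℝ), t0 ≤ t → t ≤ 1 → PP U t → CovLe U 1 → ∀ (ι : Type) [Fintype ι]
  (b : OrthonormalBasis ι ℝ E) (u : E → ℝ) (lam s : ℝ), Tst u → 0 < lam → 0 < s → s ≤ 1 →
  ∀ r ∈ Ioo 0 s, EX U r (fun θ => TC b (pw U r θ) (pw U r θ) u) ≤
    1 / t * (lam * κ * ((1 + C * Real.sqrt s) * Y1 U u + C * Real.sqrt s * Z1 b U u) +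
      1 / lam * Z1 b U u)

/-- STC: the basic inequality for one short step -/
def STCStmt : Prop := ∀ t0 : ℝ, 0 < t0 → t0 ≤ 1 → ∃ C : ℝ, 1 ≤ C ∧ ∀ κ : ℝ, 0 ≤ κ → TK E t0 κ →
  ∀ (t s η g : ℝ), t0 ≤ t → t ≤ 1 → 0 < s → s ≤ 1 → 0 < η → 0 < g → GB E (t + η * s) g →
  ∀ (ι : Type) [Fintype ι] [DecidableEq ι] (b : OrthonormalBasis ι ℝ E) (ρ : ι → ℝ) (U : E → ℝ),
  WC b t ρ U → ∀ (u : E → ℝ) (lam : ℝ), Tst u → 0 < lam →
  cv U u u ≤ g * (Y1 U u * (1 + s * η ^ 2 / (4 * t)) + s / t *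
      (lam * κ * ((1 + C * Real.sqrt s) * Y1 U u + C * Real.sqrt s * Z1 b U u) +
      1 / lam * Z1 b U u)) + s * (1 + C * s) * cv U u u

/-- STQ: one short step for the constant `GB` -/
def STQStmt : Prop := ∀ t0 : ℝ, 0 < t0 → t0 ≤ 1 → ∃ C : ℝ, 1 ≤ C ∧ ∀ K : ℝ, 1 ≤ K →
  TK E t0 (K ^ 2) → ∀ (t s η g L : ℝ), t0 ≤ t → t ≤ 1 → 0 < s → s ≤ 1 → 0 < η → 0 < g → 1 ≤ L →
  GB E (t + η * s) g →
  g * (1 + s / t * (η ^ 2 / 4 + 2 * K * (1 + C * Real.sqrt s) / Real.sqrt L)) ≤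
    (1 - s - C * s ^ 2) * L → GB E t L

/-- GBI: monotonicity, start and use of `GB` -/
def GBIStmt : Prop := (∀ t g : ℝ, 1 ≤ t → 1 ≤ g → GB E t g) ∧
  (∀ t g : ℝ, GB E t g → 0 ≤ g → ∀ (U : E → ℝ) (a : ℝ), PP U t → 0 ≤ a → CovLe U a →
    GPC (mu U) (g * (a + 1)))

/-- THD: the bound for `GB` in terms of the third moments -/
def THDStmt : Prop := ∀ t0 K : ℝ, 0 < t0 → t0 ≤ 1 → 1 ≤ K → TK E t0 (K ^ 2) →
  GB E t0 ((1 + Real.sqrt K * Real.log (1 / t0)) ^ 4)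

end first

/-- INT: integration of the differential inequality -/
def INTStmt : Prop := ∀ (P : ℝ → ℝ → Prop) (t0 K C : ℝ), 0 < t0 → t0 ≤ 1 → 1 ≤ K → 1 ≤ C →
  (∀ t g : ℝ, 1 ≤ t → 1 ≤ g → P t g) →
  (∀ t s η g L : ℝ, t0 ≤ t → t ≤ 1 → 0 < s → s ≤ 1 → 0 < η → 0 < g → 1 ≤ L →
    P (t + η * s) g →
    g * (1 + s / t * (η ^ 2 / 4 + 2 * K * (1 + C * Real.sqrt s) / Real.sqrt L)) ≤
      (1 - s - C * s ^ 2) * L → P t L) →
  P t0 ((1 + Real.sqrt K * Real.log (1 / t0)) ^ 4)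

/-- TH5: the bound for `GB` in terms of the dimension -/
def TH5Stmt : Prop := ∀ c : ℝ, 0 < c → c ≤ 1 / 2 → ∃ C : ℝ, 1 ≤ C ∧ ∀ (E : Type)
    [NormedAddCommGroup E] [InnerProductSpace ℝ E] [FiniteDimensional ℝ E] [MeasurableSpace E]
    [BorelSpace E],
  GB E (c / (L1 (Module.finrank ℝ E) * L2 (Module.finrank ℝ E)) / 2)
    (C * L2 (Module.finrank ℝ E) ^ 5)

/-- TC5: variance of Lipschitz functions, covariance at most one -/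
def TC5Stmt : Prop := ∃ C : ℝ, 1 ≤ C ∧ ∀ (E : Type) [NormedAddCommGroup E] [InnerProductSpace ℝ E]
    [FiniteDimensional ℝ E] [MeasurableSpace E] [BorelSpace E]
    (U : E → ℝ) (t : ℝ), PP U t → CovLe U 1 → ∀ f : E → ℝ, ContDiff ℝ 1 f →
  (∀ x, ‖fderiv ℝ f x‖ ≤ 1) →
  cv U f f ≤ C * L2 (Module.finrank ℝ E) ^ 5

/-- SL5: scaling -/
def SL5Stmt : Prop := ∃ C : ℝ, 1 ≤ C ∧ ∀ (E : Type) [NormedAddCommGroup E]
    [InnerProductSpace ℝ E] [FiniteDimensional ℝ E] [MeasurableSpace E] [BorelSpace E]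
    (U : E → ℝ) (t a M : ℝ), PP U t → 0 < a → CovLe U a → 0 ≤ M → ∀ f : E → ℝ, ContDiff ℝ 1 f →
  (∀ x, ‖fderiv ℝ f x‖ ≤ M) →
  cv U f f ≤ C * a * M ^ 2 * L2 (Module.finrank ℝ E) ^ 5

/-- BD5: Lipschitz functions on bodies -/
def BD5Stmt : Prop := ∃ C : ℝ, 1 ≤ C ∧ ∀ (E : Type) [NormedAddCommGroup E]
    [InnerProductSpace ℝ E] [FiniteDimensional ℝ E] [MeasurableSpace E] [BorelSpace E]
    (K : Set E) (R s : ℝ), CB K R → 0 < s →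
  (∀ v : E, ∫ x in K, (inner ℝ v x) ^ 2 ≤ s ^ 2 * ‖v‖ ^ 2 * volume.real K) →
  PL K (C * s * L2 (Module.finrank ℝ E) ^ ((5:ℝ) / 2))

end Pool.Agent.H78.KP
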